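import Pool.Agent.Helper38.FRX.Goals

set_option autoImplicit false

namespace Pool.Agent.Helper32.FRX

open Finset
open Pool.Agent.Helper55.FR
open Pool.Agent.Helper38.FRX

theorem avg (htre : TreStmt) (hcnt : CntcStmt) : Pool.Agent.Helper38.FRX.AvgStmt := by
  intro V _ _ n m L lam hC hL1 hlam hcut ρ Z A D X k u v d c huv hc hk hA
  obtain ⟨w, hw⟩ : ∃ w : V → ℝ, w = fun x => ∑ f ∈ A, if x ∈ X f then (1 : ℝ) else 0 := ⟨_, rfl⟩
  have hw0 : ∀ x, 0 ≤ w x := by
    intro x
    rw [hw]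
    exact sum_nonneg fun f _ => by split_ifs <;> norm_num
  have hwm : ∀ x, w (m x) = w x := by
    intro x
    rw [hw]
    refine sum_congr rfl fun f hf => ?_
    have h1 := (hA f hf).2.2.2.2.2.1 x
    by_cases h2 : x ∈ X f
    · rw [if_pos h2, if_pos (h1.1 h2)]
    · rw [if_neg h2, if_neg fun h3 => h2 (h1.2 h3)]
  obtain ⟨E, hEm, hEc, hEs⟩ := htre V n m lam hC.mm hlam hcut w hw0 hwm
  have hsumE : ∑ x ∈ E, w x = ∑ f ∈ A, ((E ∩ X f).card : ℝ) := by
    rw [hw, sum_comm]
    refine sum_congr rfl fun f _ => ?_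
    have e : E.filter (fun x => x ∈ X f) = E ∩ X f := by
      ext x
      rw [mem_filter, mem_inter]
    rw [← sum_filter, sum_const, nsmul_eq_mul, mul_one, e]
  have hsumU : ∑ x, w x = ∑ f ∈ A, ((X f).card : ℝ) := by
    rw [hw, sum_comm]
    refine sum_congr rfl fun f _ => ?_
    have e : univ.filter (fun x => x ∈ X f) = X f := by
      ext x
      rw [mem_filter]
      exact ⟨fun h => h.2, fun h => ⟨mem_univ _, h⟩⟩
    rw [← sum_filter, sum_const, nsmul_eq_mul, mul_one, e]
  have hsumU2 : ∑ f ∈ A, ((X f).card : ℝ) ≤ A.card * c := by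
    have : ∑ f ∈ A, ((X f).card : ℝ) ≤ ∑ _f ∈ A, (c : ℝ) := by
      refine sum_le_sum fun f hf => ?_
      exact_mod_cast (hA f hf).2.2.2.2.2.2.2.2
    rw [sum_const, nsmul_eq_mul] at this
    exact this
  classical
  obtain ⟨A', hA'⟩ : ∃ A', A' = A.filter fun f => lam * ((E ∩ X f).card : ℝ) ≤ 4 * c := ⟨_, rfl⟩
  obtain ⟨B, hB⟩ : ∃ B, B = A.filter fun f => ¬ lam * ((E ∩ X f).card : ℝ) ≤ 4 * c := ⟨_, rfl⟩
  have hcard : (A.card : ℝ) = A'.card + B.card := by
    rw [hA', hB]
    exact_mod_cast (card_filter_add_card_filter_not _).symm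
  have hBle : 4 * (c : ℝ) * B.card ≤ 2 * (A.card * c) := by
    have h1 : ∑ _f ∈ B, 4 * (c : ℝ) ≤ ∑ f ∈ B, lam * ((E ∩ X f).card : ℝ) := by
      refine sum_le_sum fun f hf => ?_
      rw [hB, mem_filter] at hf
      exact (not_le.1 hf.2).le
    have h2 : ∑ f ∈ B, lam * ((E ∩ X f).card : ℝ) ≤ ∑ f ∈ A, lam * ((E ∩ X f).card : ℝ) := by
      refine sum_le_sum_of_subset_of_nonneg ?_ fun f _ _ => by positivity
      rw [hB]
      exact filter_subset _ _
    rw [sum_const, nsmul_eq_mul] at h1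
    rw [← mul_sum, ← mul_sum, ← hsumE, mul_sum] at h2
    rw [hsumU] at hEs
    nlinarith
  have hAA' : (A.card : ℝ) ≤ 2 * A'.card := by
    rcases Nat.eq_zero_or_pos c with h0 | h0
    · have hBe : B = ∅ := by
        rw [hB, filter_eq_empty_iff]
        intro f hf
        rw [not_not]
        have h1 := (hA f hf).2.2.2.2.2.2.2.2
        rw [h0, Nat.le_zero, card_eq_zero] at h1
        rw [h1, inter_empty, card_empty, h0]
        simp
      rw [hBe, card_empty] at hcard
      have : (0 : ℝ) ≤ A'.card := Nat.cast_nonneg _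
      push_cast at hcard
      linarith
    · have hc0 : (0 : ℝ) < c := by exact_mod_cast h0
      have h1 : (2 * (c : ℝ)) * (2 * B.card) ≤ (2 * c) * A.card := by linarith
      have h2 := le_of_mul_le_mul_left h1 (by positivity)
      linarith
  have hfin := hcnt V n m E L hC hL1 hEm hEc ρ Z A' D k u (v - 2 * u) v d (by omega) hk (by
    intro f hf
    rw [hA', mem_filter] at hf
    obtain ⟨hfA, hfc⟩ := hf
    obtain ⟨a1, a2, a3, a4, a5, a6, a7, a8, a9⟩ := hA f hfA
    have he : (E ∩ X f).card ≤ v - 2 * u := by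
      have h1 : lam * ((E ∩ X f).card : ℝ) ≤ lam * ((v : ℝ) - 2 * u) := hfc.trans hc
      have h2 := le_of_mul_le_mul_left h1 hlam
      have h3 : ((v - 2 * u : ℕ) : ℝ) = (v : ℝ) - 2 * u := by
        rw [Nat.cast_sub huv]
        push_cast
        ring
      rw [← h3] at h2
      exact_mod_cast h2
    exact ⟨a1, a2, a3, a4, a5, (card_le_card (inter_subset_inter_left a7)).trans he,
      (card_le_card (inter_subset_inter_left a8)).trans he⟩)
  linarith

end Pool.Agent.Helper32.FRX
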