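import Pool.Agent.Helper38.FRX.Goals

set_option autoImplicit false

namespace Pool.Agent.Helper32.FRX

open Finset
open Pool.Agent.Helper55.FR
open Pool.Agent.Helper38.FRX

theorem flip_flip (a : Lab) : Pool.Agent.Helper55.FR.flip (Pool.Agent.Helper55.FR.flip a) = a := by
  cases a <;> rfl

theorem flip_inj {a b : Lab} (h : Pool.Agent.Helper55.FR.flip a = Pool.Agent.Helper55.FR.flip b) :
    a = b := by
  rw [← flip_flip a, h, flip_flip]

theorem isK_flip (a : Lab) : isK (Pool.Agent.Helper55.FR.flip a) ↔ isK a := by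
  cases a <;> simp [isK, Pool.Agent.Helper55.FR.flip]

theorem mem_VM {V : Type} [Fintype V] [DecidableEq V] {m : V → V} {f : V → Lab} {x : V} :
    x ∈ VM m f ↔ f (m x) ≠ Pool.Agent.Helper55.FR.flip (f x) := by
  simp [VM]

theorem VM_inv {V : Type} [Fintype V] [DecidableEq V] {m : V → V} (hm : ∀ v, m (m v) = v)
    (f : V → Lab) (x : V) : x ∈ VM m f ↔ m x ∈ VM m f := by
  rw [mem_VM, mem_VM, hm]
  constructor
  · intro h h2
    apply h
    rw [h2, flip_flip]
  · intro h h2
    apply h
    rw [h2, flip_flip]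

theorem Ym_sub {V : Type} [Fintype V] [DecidableEq V] {m : V → V}
    (ρ f : V → Lab) : Ym m (Dif ρ f) ⊆ VM m f ∪ VM m ρ := by
  intro x hx
  rw [mem_union, mem_VM, mem_VM]
  by_contra hne
  rw [not_or, not_not, not_not] at hne
  obtain ⟨h1, h2⟩ := hne
  rw [Ym, mem_filter] at hx
  apply hx.2
  rw [Dif, mem_filter, mem_filter, h1, h2, isK_flip]
  constructor
  · rintro ⟨_, h⟩
    refine ⟨mem_univ _, ?_⟩
    rcases h with h | h
    · exact Or.inl h
    · exact Or.inr fun h3 => h (flip_inj h3)
  · rintro ⟨_, h⟩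
    refine ⟨mem_univ _, ?_⟩
    rcases h with h | h
    · exact Or.inl h
    · exact Or.inr fun h3 => h (by rw [h3])

open Classical in
theorem smgc (havg : AvgStmt) (hvmb : VmbStmt) (hxr : XrStmt) (hzbd : ZbdStmt) : SmgcStmt := by
  intro V _ _ n m h lam g L b0 θ ε ρ hC h0 h1 hg24 hL1 hlam hlam5 hθ0 hθ1 hε hcut hNum hRef hVMρ
  obtain ⟨S, hS⟩ : ∃ S : Finset (V → Lab), S = (univ : Finset (V → Lab)).filter (fun f =>
    Glo n m h g f ∧ b0 ≤ (Bad m f).card ∧
          Rooted (adj n m) (Zs n m ρ) (Dif ρ f) ∧ h * (Dif ρ f).card ≤ 16 * (Bad m f).card) :=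
    ⟨_, rfl⟩
  obtain ⟨s, hs⟩ : ∃ s, s = Real.sqrt θ := ⟨_, rfl⟩
  have hs0 : 0 ≤ s := by rw [hs]; exact Real.sqrt_nonneg _
  have hs1 : s < 1 := by
    rw [hs]
    calc Real.sqrt θ < Real.sqrt 1 := Real.sqrt_lt_sqrt hθ0.le hθ1
      _ = 1 := Real.sqrt_one
  have hLpos : (0 : ℝ) < L := by exact_mod_cast hL1
  have hlampos : (0 : ℝ) < lam := by linarith
  have hhg : 0 < h * g := by linarith
  -- one value of b
  have hb : ∀ b : ℕ, ∑ f ∈ S.filter (fun f => (Bad m f).card = b), θ ^ (Bad m f).card ≤
      ε * (1 - s) * s ^ b := by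
    intro b
    rcases (S.filter (fun f => (Bad m f).card = b)).eq_empty_or_nonempty with he | ⟨f0, hf0⟩
    · rw [he, sum_empty]
      have : 0 ≤ 1 - s := by linarith
      positivity
    · obtain ⟨A, hA⟩ : ∃ A, A = S.filter (fun f => (Bad m f).card = b) := ⟨_, rfl⟩
      have hAf : ∀ f ∈ A, Glo n m h g f ∧ b0 ≤ b ∧
          Rooted (adj n m) (Zs n m ρ) (Dif ρ f) ∧ h * (Dif ρ f).card ≤ 16 * b ∧
          (Bad m f).card = b := by
        intro f hf
        rw [hA, mem_filter, hS, mem_filter] at hf
        obtain ⟨⟨-, a1, a2, a3, a4⟩, a5⟩ := hf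
        rw [a5] at a2 a4
        exact ⟨a1, a2, a3, a4, a5⟩
      rw [← hA] at hf0
      obtain ⟨c1, c2, c3, c4, c5⟩ := hAf f0 hf0
      have hb04 : h * g ≤ 4 * b := by
        have := c1.cB
        rw [c5] at this
        exact this
      have hb0b : (b0 : ℝ) ≤ b := by exact_mod_cast c2
      have hlam9 : lam ≤ 9 * b := by linarith
      have hbnn : (0 : ℝ) ≤ b := Nat.cast_nonneg b
      obtain ⟨u, hu⟩ : ∃ u : ℕ, u = ⌊16 * (b : ℝ) / (h * g)⌋₊ := ⟨_, rfl⟩
      obtain ⟨w, hw⟩ : ∃ w : ℕ, w = ⌈56 * (b : ℝ) / lam⌉₊ := ⟨_, rfl⟩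
      obtain ⟨v, hv⟩ : ∃ v : ℕ, v = 2 * u + w := ⟨_, rfl⟩
      obtain ⟨d, hd⟩ : ∃ d : ℕ, d = ⌊16 * (b : ℝ) / h⌋₊ := ⟨_, rfl⟩
      obtain ⟨q, hq⟩ : ∃ q : ℕ, q = ⌈(d : ℝ) / L⌉₊ := ⟨_, rfl⟩
      obtain ⟨k, hk⟩ : ∃ k : ℕ, k = q + 1 + v := ⟨_, rfl⟩
      have hu1 : h * g * u ≤ 16 * b := by
        have h2 : (u : ℝ) ≤ 16 * (b : ℝ) / (h * g) := by
          rw [hu]
          exact Nat.floor_le (by positivity)
        rw [le_div_iff₀ hhg] at h2
        linarith
      have hw1 : 56 * (b : ℝ) ≤ lam * w := by
        have := Nat.le_ceil (56 * (b : ℝ) / lam)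
        rw [← hw, div_le_iff₀ hlampos] at this
        linarith
      have hw2 : lam * w ≤ 56 * b + lam := by
        have h2 : (w : ℝ) < 56 * (b : ℝ) / lam + 1 := by
          rw [hw]
          exact Nat.ceil_lt_add_one (by positivity)
        have h3 : lam * w ≤ lam * (56 * (b : ℝ) / lam + 1) :=
          mul_le_mul_of_nonneg_left h2.le hlampos.le
        have h4 : lam * (56 * (b : ℝ) / lam + 1) = 56 * b + lam := by
          field_simp
        linarith
      have hd1 : h * d ≤ 16 * b := by
        have h2 : (d : ℝ) ≤ 16 * (b : ℝ) / h := by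
          rw [hd]
          exact Nat.floor_le (by positivity)
        rw [le_div_iff₀ h0] at h2
        linarith
      have hq1 : (d : ℝ) ≤ L * q := by
        have := Nat.le_ceil ((d : ℝ) / L)
        rw [← hq, div_le_iff₀ hLpos] at this
        linarith
      have hq2 : (L : ℝ) * q ≤ d + L := by
        have h2 : (q : ℝ) < (d : ℝ) / L + 1 := by
          rw [hq]
          exact Nat.ceil_lt_add_one (by positivity)
        have h3 : (L : ℝ) * q ≤ L * ((d : ℝ) / L + 1) :=
          mul_le_mul_of_nonneg_left h2.le hLpos.le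
        have h4 : (L : ℝ) * ((d : ℝ) / L + 1) = d + L := by
          field_simp
        linarith
      have hvR : (v : ℝ) = 2 * u + w := by rw [hv]; push_cast; ring
      have hkR : (k : ℝ) = q + 1 + v := by rw [hk]; push_cast; ring
      -- the numerical conditions
      have hlamv : lam * v ≤ 131 * b := by
        have h2 : 49 * (lam * u) ≤ 100 * (16 * b) := by
          have h3 : 49 * lam * u ≤ 100 * (h * g) * u :=
            mul_le_mul_of_nonneg_right hlam (Nat.cast_nonneg u)
          nlinarith
        rw [hvR]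
        nlinarith
      have hhLk : h * L * k ≤ 16 * b + h * L * (v + 2) := by
        have h2 : h * (L * q) ≤ h * (d + L) := mul_le_mul_of_nonneg_left hq2 h0.le
        rw [hkR]
        nlinarith
      have hz : h * (Zs n m ρ).card ≤ 8 * b + 2 := by
        have := hzbd V n m h g b0 ρ h0 h1 hg24 hRef
        linarith
      have hnum := hNum b k v (Zs n m ρ).card hlam9 hlamv hhLk hz
      -- AVG
      have hcard := havg V n m L lam hC hL1 hlampos hcut ρ (Zs n m ρ) A (fun f => Dif ρ f)
        (fun f => VM m f ∪ VM m ρ) k u v d (14 * b) (by omega) (by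
          rw [hvR]
          push_cast
          nlinarith) (by
          have h2 : (d : ℝ) + L * (1 + v) ≤ L * k := by
            rw [hkR]
            nlinarith
          exact_mod_cast h2) (by
          intro f hf
          obtain ⟨d1, d2, d3, d4, d5⟩ := hAf f hf
          have hspf : h * g * (Spc n f).card ≤ 8 * b := by
            have := d1.cS
            rw [d5] at this
            exact this
          have hspr : h * g * (Spc n ρ).card ≤ 8 * b := by
            have := hRef.cS
            linarith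
          refine ⟨?_, d3, ?_, ?_, ?_, ?_, subset_union_left, Ym_sub ρ f, ?_⟩
          · intro x hx
            rw [Dif, mem_filter, not_and, not_or] at hx
            have := (hx (mem_univ _)).2
            exact not_not.1 this
          · rw [hd]
            apply Nat.le_floor
            rw [le_div_iff₀ h0]
            linarith
          · rw [hu]
            apply Nat.le_floor
            rw [le_div_iff₀ hhg]
            linarith
          · have hX : (Xr n (Dif ρ f)).card ≤ (Spc n f).card + (Spc n ρ).card :=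
              (card_le_card ((hxr V n f).2 ρ hRef.noO d1.noO)).trans (card_union_le _ _)
            rw [hu]
            apply Nat.le_floor
            rw [le_div_iff₀ hhg]
            have : ((Xr n (Dif ρ f)).card : ℝ) ≤ (Spc n f).card + (Spc n ρ).card := by
              exact_mod_cast hX
            nlinarith
          · intro x
            rw [mem_union, mem_union, VM_inv hC.mm f x, VM_inv hC.mm ρ x]
          · have h2 := hvmb V m f hC.mm
            have h3 : (univ.filter fun x => f x ≠ Lab.O ∧ f (m x) = Lab.O).card = 0 := by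
              rw [card_eq_zero, filter_eq_empty_iff]
              intro x _ hx
              exact d1.noO _ hx.2
            have h4 := d1.cT
            rw [d5] at h2 h4
            have h5 : (VM m f ∪ VM m ρ).card ≤ (VM m f).card + (VM m ρ).card := card_union_le _ _
            show (VM m f ∪ VM m ρ).card ≤ 14 * b
            omega)
      rw [← hA]
      calc ∑ f ∈ A, θ ^ (Bad m f).card = ∑ _f ∈ A, θ ^ b :=
            sum_congr rfl fun f hf => by rw [(hAf f hf).2.2.2.2]
        _ = A.card * θ ^ b := by rw [sum_const, nsmul_eq_mul]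
        _ ≤ (2 * ((864 * (L : ℝ)) ^ k * (24 * (L : ℝ)) ^ v *
            (1 + 1 / (24 * (L : ℝ))) ^ (Zs n m ρ).card)) * θ ^ b :=
            mul_le_mul_of_nonneg_right hcard (by positivity)
        _ ≤ ε * (1 - s) * s ^ b := by rw [hs]; exact hnum
  rw [← hS]
  have hmaps : ∀ f ∈ S, (Bad m f).card ∈ range (Fintype.card V + 1) := by
    intro f _
    rw [mem_range]
    exact Nat.lt_succ_of_le (card_le_univ _)
  rw [← sum_fiberwise_of_maps_to hmaps]
  calc _ ≤ ∑ b ∈ range (Fintype.card V + 1), ε * (1 - s) * s ^ b := sum_le_sum fun b _ => hb b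
    _ = ε * ((1 - s) * ∑ b ∈ range (Fintype.card V + 1), s ^ b) := by
        rw [mul_sum, mul_sum]
        exact sum_congr rfl fun b _ => by ring
    _ ≤ ε * 1 := by
        apply mul_le_mul_of_nonneg_left _ hε
        have := mul_neg_geom_sum s (Fintype.card V + 1)
        rw [this]
        have : 0 ≤ s ^ (Fintype.card V + 1) := pow_nonneg hs0 _
        linarith
    _ = ε := mul_one _

end Pool.Agent.Helper32.FRX
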